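import Mathlib
import Pool.Agent.H12.PolyU

namespace Pool.Agent.Results.MP_90a930_lc.Counter

/-- `M` is a matching of `G`: a set of edges of `G`, no two sharing an endpoint -/
def IsMatching {n : ℕ} (G : SimpleGraph (Fin n)) (M : Finset (Sym2 (Fin n))) : Prop :=
  (∀ e ∈ M, e ∈ G.edgeSet) ∧ ∀ e ∈ M, ∀ e' ∈ M, e ≠ e' → ∀ v, v ∈ e → v ∉ e'

/-- `M` is an inclusion-maximal matching of `G` -/
def IsMaxMatching {n : ℕ} (G : SimpleGraph (Fin n)) (M : Finset (Sym2 (Fin n))) : Prop :=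
  IsMatching G M ∧ ∀ M', IsMatching G M' → M ⊆ M' → M' = M

/-- there is a schedule of matchings in which each edge `e` appears in every window of
`f e` consecutive days -/
def Schedulable {n : ℕ} (G : SimpleGraph (Fin n)) (f : Sym2 (Fin n) → ℕ) : Prop :=
  ∃ S : ℕ → Finset (Sym2 (Fin n)), (∀ t, IsMatching G (S t)) ∧
    ∀ e ∈ G.edgeSet, ∀ t, ∃ s < f e, e ∈ S (t + s)

/-- the maximum over maximal matchings `M` of the sum of `z e * f e` over `M` -/
noncomputable def best {n : ℕ} (G : SimpleGraph (Fin n)) (f : Sym2 (Fin n) → ℕ)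
    (z : Sym2 (Fin n) → ℝ) : ℝ :=
  sSup {x | ∃ M, IsMaxMatching G M ∧ x = ∑ e ∈ M, z e * f e}

open Classical in
/-- the set of values `1 / best z` over weightings `z` of the edges with total weight one;
the poly density is its maximum -/
def densityValues {n : ℕ} (G : SimpleGraph (Fin n)) (f : Sym2 (Fin n) → ℕ) : Set ℝ :=
  {y | ∃ z : Sym2 (Fin n) → ℝ, (∀ e ∈ G.edgeSet, 0 ≤ z e ∧ z e ≤ 1) ∧
    ∑ e ∈ G.edgeFinset, z e = 1 ∧ y = 1 / best G f z}

def ed (i : ℕ) : Sym2 (Fin 13) :=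
  [s(0,1), s(0,2), s(0,6), s(1,3), s(2,4), s(3,5), s(3,7), s(4,8), s(4,9), s(5,10), s(5,11),
    s(5,12)].getD i s(0,1)

def E : Finset (Sym2 (Fin 13)) :=
  {s(0,1), s(0,2), s(0,6), s(1,3), s(2,4), s(3,5), s(3,7), s(4,8), s(4,9), s(5,10), s(5,11),
    s(5,12)}

def G : SimpleGraph (Fin 13) := SimpleGraph.fromEdgeSet (E : Set (Sym2 (Fin 13)))

def f (e : Sym2 (Fin 13)) : ℕ :=
  if e = s(0,1) ∨ e = s(0,2) then 3 else if e = s(0,6) then 6
  else if e = s(1,3) ∨ e = s(2,4) ∨ e = s(5,10) then 2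
  else if e = s(3,5) ∨ e = s(4,8) then 4 else if e = s(3,7) ∨ e = s(4,9) then 12
  else if e = s(5,11) then 18 else if e = s(5,12) then 36 else 1

lemma mem_G (e : Sym2 (Fin 13)) : e ∈ G.edgeSet ↔ e ∈ E := by
  rw [G, SimpleGraph.edgeSet_fromEdgeSet]
  have h : ∀ e ∈ E, ¬ e.IsDiag := by decide
  constructor
  · exact fun h => h.1
  · exact fun he => ⟨he, h e he⟩

lemma not_sched : ¬ Schedulable G f := by
  rintro ⟨S, h1, h2⟩
  refine Pool.Agent.H12.PolyU.unsat _
    (Pool.Agent.H12.PolyEnc.m1 (fun i t => ed i ∈ S t) ?_)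
    (Pool.Agent.H12.PolyEnc.m2 (fun i t => ed i ∈ S t) ?_)
  · have hc : ∀ p ∈ Pool.Agent.H12.PolyEnc.cf, ed p.1 ≠ ed p.2 ∧ ∃ v, v ∈ ed p.1 ∧ v ∈ ed p.2 := by
      decide
    rintro p hp t ⟨a, b⟩
    obtain ⟨c, v, d, e⟩ := hc p hp
    exact (h1 t).2 _ a _ b c v d e
  · have hc : ∀ i < 12, ed i ∈ E ∧ f (ed i) = Pool.Agent.H12.PolyEnc.fr i := by decide
    intro i hi t
    obtain ⟨a, b⟩ := hc i hi
    rw [← b]
    exact h2 _ ((mem_G _).2 a) t

lemma mm (M : Finset (Sym2 (Fin 13))) (h1 : M ⊆ E)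
    (h2 : ∀ e ∈ M, ∀ e' ∈ M, e ≠ e' → ∀ v, v ∈ e → v ∉ e')
    (h3 : ∀ e ∈ E, e ∈ M ∨ ∃ e' ∈ M, e ≠ e' ∧ ∃ v, v ∈ e ∧ v ∈ e') : IsMaxMatching G M := by
  refine ⟨⟨fun e he => (mem_G e).2 (h1 he), h2⟩, fun M' hM hs => ?_⟩
  refine Finset.Subset.antisymm (fun e he => ?_) hs
  rcases h3 e ((mem_G e).1 (hM.1 e he)) with h | ⟨e', a, b, v, c, d⟩
  · exact h
  · exact absurd d (hM.2 e he e' (hs a) b v c)

lemma bdd (z : Sym2 (Fin 13) → ℝ) :
    BddAbove {x | ∃ M, IsMaxMatching G M ∧ x = ∑ e ∈ M, z e * f e} := by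
  apply Set.Finite.bddAbove
  refine (Set.finite_range (fun M : Finset (Sym2 (Fin 13)) => ∑ e ∈ M, z e * (f e : ℝ))).subset ?_
  rintro x ⟨M, _, rfl⟩
  exact ⟨M, rfl⟩

lemma le_best (z : Sym2 (Fin 13) → ℝ) (M : Finset (Sym2 (Fin 13))) (h : IsMaxMatching G M) :
    ∑ e ∈ M, z e * f e ≤ best G f z :=
  le_csSup (bdd z) ⟨M, h, rfl⟩

open Classical in
lemma edgeF : G.edgeFinset = E := by
  ext e
  rw [SimpleGraph.mem_edgeFinset, mem_G]

lemma lower (z : Sym2 (Fin 13) → ℝ) (hz : ∑ e ∈ E, z e = 1) : 6 / 5 ≤ best G f z := by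
  have a1 := le_best z {s(0,1), s(2,4), s(3,5)} (mm _ (by decide +kernel) (by decide +kernel) (by decide +kernel))
  have a2 := le_best z {s(0,1), s(2,4), s(3,7), s(5,10)} (mm _ (by decide +kernel) (by decide +kernel) (by decide +kernel))
  have a3 := le_best z {s(0,2), s(1,3), s(4,8), s(5,10)} (mm _ (by decide +kernel) (by decide +kernel) (by decide +kernel))
  have a4 := le_best z {s(0,2), s(1,3), s(4,9), s(5,10)} (mm _ (by decide +kernel) (by decide +kernel) (by decide +kernel))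
  have a5 := le_best z {s(0,6), s(1,3), s(2,4), s(5,10)} (mm _ (by decide +kernel) (by decide +kernel) (by decide +kernel))
  have a6 := le_best z {s(0,6), s(1,3), s(2,4), s(5,11)} (mm _ (by decide +kernel) (by decide +kernel) (by decide +kernel))
  have a7 := le_best z {s(0,6), s(1,3), s(2,4), s(5,12)} (mm _ (by decide +kernel) (by decide +kernel) (by decide +kernel))
  rw [E] at hz
  repeat rw [Finset.sum_insert (by decide)] at hz
  repeat rw [Finset.sum_insert (by decide)] at a1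
  repeat rw [Finset.sum_insert (by decide)] at a2
  repeat rw [Finset.sum_insert (by decide)] at a3
  repeat rw [Finset.sum_insert (by decide)] at a4
  repeat rw [Finset.sum_insert (by decide)] at a5
  repeat rw [Finset.sum_insert (by decide)] at a6
  repeat rw [Finset.sum_insert (by decide)] at a7
  rw [Finset.sum_singleton] at hz a1 a2 a3 a4 a5 a6 a7
  have f1 : f s(0,1) = 3 := by decide
  have f2 : f s(0,2) = 3 := by decide
  have f3 : f s(0,6) = 6 := by decide
  have f4 : f s(1,3) = 2 := by decide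
  have f5 : f s(2,4) = 2 := by decide
  have f6 : f s(3,5) = 4 := by decide
  have f7 : f s(3,7) = 12 := by decide
  have f8 : f s(4,8) = 4 := by decide
  have f9 : f s(4,9) = 12 := by decide
  have f10 : f s(5,10) = 2 := by decide
  have f11 : f s(5,11) = 18 := by decide
  have f12 : f s(5,12) = 36 := by decide
  simp only [f1, f2, f3, f4, f5, f6, f7, f8, f9, f10, f11, f12] at a1 a2 a3 a4 a5 a6 a7
  push_cast at a1 a2 a3 a4 a5 a6 a7
  linarith

noncomputable def z0 (e : Sym2 (Fin 13)) : ℝ :=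
  if e = s(0,1) then 2 / 5 else if e = s(1,3) then 3 / 5 else 0

lemma z0_sum : ∑ e ∈ E, z0 e = 1 := by
  rw [E]
  repeat rw [Finset.sum_insert (by decide)]
  rw [Finset.sum_singleton]
  simp only [z0]
  simp
  norm_num

lemma z0_best : best G f z0 = 6 / 5 := by
  refine le_antisymm ?_ (lower z0 z0_sum)
  refine csSup_le ⟨_, {s(0,1), s(2,4), s(3,5)}, mm _ (by decide +kernel) (by decide +kernel) (by decide +kernel), rfl⟩ ?_
  rintro x ⟨M, hM, rfl⟩
  have key : ∀ e, z0 e * f e = (if e = s(0,1) then 6 / 5 else 0) + if e = s(1,3) then 6 / 5 else 0 := by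
    intro e
    by_cases h1 : e = s(0,1)
    · subst h1
      have f1 : f s(0,1) = 3 := by decide
      rw [f1, z0, if_pos rfl, if_pos rfl, if_neg (by decide)]
      norm_num
    · by_cases h2 : e = s(1,3)
      · subst h2
        have f1 : f s(1,3) = 2 := by decide
        rw [f1, z0, if_neg h1, if_pos rfl, if_neg h1, if_pos rfl]
        norm_num
      · rw [z0, if_neg h1, if_neg h2, if_neg h1, if_neg h2]
        norm_num
  simp only [key, Finset.sum_add_distrib, Finset.sum_ite_eq']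
  by_cases h1 : s(0,1) ∈ M
  · have h2 : s(1,3) ∉ M := fun h2 => hM.1.2 _ h1 _ h2 (by decide) 1 (by decide) (by decide)
    rw [if_pos h1, if_neg h2]
    norm_num
  · rw [if_neg h1]
    split_ifs <;> norm_num

theorem result : ∃ (n : ℕ) (G : SimpleGraph (Fin n)) (f : Sym2 (Fin n) → ℕ),
    G.edgeSet.Nonempty ∧ (∀ e, 1 ≤ f e) ∧ IsGreatest (densityValues G f) (5 / 6) ∧
      ¬ Schedulable G f := by
  refine ⟨13, G, f, ⟨s(0,1), (mem_G _).2 (by decide)⟩, by decide, ⟨⟨z0, ?_, ?_, ?_⟩, ?_⟩, not_sched⟩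
  · intro e _
    unfold z0
    split_ifs <;> norm_num
  · rw [edgeF]
    exact z0_sum
  · rw [z0_best]
    norm_num
  · rintro y ⟨z, _, hz, rfl⟩
    rw [edgeF] at hz
    have := lower z hz
    rw [div_le_iff₀ (by linarith)]
    linarith

end Pool.Agent.Results.MP_90a930_lc.Counter
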